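import Pool.Agent.H61.HB.Stmts2

/-!
Project HB (MP_91403e_an), row TWC: the production term.
-/

set_option autoImplicit false

namespace HB

theorem twc_sq_nonneg (k : Z2) : 0 ≤ sq k := by
  unfold sq
  positivity

theorem twc_sq_one {k : Z2} (hk : k ≠ 0) : 1 ≤ sq k := by
  unfold sq
  have h : 1 ≤ k.1 ^ 2 + k.2 ^ 2 := by
    by_contra hc
    have h1 : k.1 ^ 2 = 0 := by nlinarith [sq_nonneg k.1, sq_nonneg k.2]
    have h2 : k.2 ^ 2 = 0 := by nlinarith [sq_nonneg k.1, sq_nonneg k.2]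
    apply hk
    ext
    · exact pow_eq_zero_iff (two_ne_zero) |>.mp h1
    · exact pow_eq_zero_iff (two_ne_zero) |>.mp h2
  exact_mod_cast h

/-- Cauchy - Schwarz for series -/
theorem twc_cs {ι : Type} (p q : ι → ℝ) (hp0 : ∀ i, 0 ≤ p i) (hq0 : ∀ i, 0 ≤ q i)
    (hp : Summable fun i => p i ^ 2) (hq : Summable fun i => q i ^ 2) :
    Summable (fun i => p i * q i) ∧ ∑' i, p i * q i ≤ √(∑' i, p i ^ 2) * √(∑' i, q i ^ 2) := by
  have hs : Summable (fun i => p i * q i) := by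
    refine Summable.of_nonneg_of_le (fun i => mul_nonneg (hp0 i) (hq0 i)) (fun i => ?_)
      (hp.add hq)
    nlinarith [sq_nonneg (p i - q i), sq_nonneg (p i), sq_nonneg (q i)]
  refine ⟨hs, hs.tsum_le_of_sum_le fun s => ?_⟩
  refine (Real.sum_mul_le_sqrt_mul_sqrt s p q).trans ?_
  apply mul_le_mul
  · exact Real.sqrt_le_sqrt (hp.sum_le_tsum s fun i _ => sq_nonneg _)
  · exact Real.sqrt_le_sqrt (hq.sum_le_tsum s fun i _ => sq_nonneg _)
  · exact Real.sqrt_nonneg _
  · exact Real.sqrt_nonneg _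

theorem twc_trm (w : V) (h : Z2 → ℂ) (k l : Z2) :
    ‖trm w h k l‖ ≤ √(∑ i, ‖w i l‖ ^ 2) * (√(sq (k - l)) * ‖h (k - l)‖) := by
  unfold trm
  calc ‖∑ i : Fin 2, w i l * (Complex.I * (co i (k - l) : ℂ)) * h (k - l)‖
      ≤ ∑ i : Fin 2, ‖w i l * (Complex.I * (co i (k - l) : ℂ)) * h (k - l)‖ := norm_sum_le _ _
    _ = (∑ i : Fin 2, ‖w i l‖ * |co i (k - l)|) * ‖h (k - l)‖ := by
        rw [Finset.sum_mul]
        refine Finset.sum_congr rfl fun i _ => ?_
        rw [norm_mul, norm_mul, norm_mul, Complex.norm_I, one_mul, Complex.norm_real,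
          Real.norm_eq_abs]
    _ ≤ (√(∑ i, ‖w i l‖ ^ 2) * √(∑ i : Fin 2, |co i (k - l)| ^ 2)) * ‖h (k - l)‖ :=
        mul_le_mul_of_nonneg_right (Real.sum_mul_le_sqrt_mul_sqrt _ _ _) (norm_nonneg _)
    _ = √(∑ i, ‖w i l‖ ^ 2) * (√(sq (k - l)) * ‖h (k - l)‖) := by
        have : ∑ i : Fin 2, |co i (k - l)| ^ 2 = sq (k - l) := by
          rw [Fin.sum_univ_two, sq_abs, sq_abs]
          unfold co sq
          simp
        rw [this]
        ring

theorem twc_thm (hTWA : TWAStmt) (hGRF : GRFStmt) : TWCStmt := by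
  intro w f h hw hf hh
  obtain ⟨g1, -, -⟩ := hGRF
  obtain ⟨-, -, -, fs4, fs5, -⟩ := g1 f hf
  obtain ⟨hs1, hs2, -, -, -, -⟩ := g1 h hh
  set a : Z2 → ℝ := fun l => √(∑ i, ‖off (w i) l‖ ^ 2) with ha
  set b : Z2 → ℝ := fun p => √(sq p) * ‖h p‖ with hb
  have ha0 : ∀ l, 0 ≤ a l := fun l => Real.sqrt_nonneg _
  have hb0 : ∀ l, 0 ≤ b l := fun l => mul_nonneg (Real.sqrt_nonneg _) (norm_nonneg _)
  have ha2 : ∀ l, a l ^ 2 = ∑ i, ‖off (w i) l‖ ^ 2 := fun l =>
    Real.sq_sqrt (Finset.sum_nonneg fun i _ => sq_nonneg _)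
  have hb2 : ∀ l, b l ^ 2 = sq l * ‖h l‖ ^ 2 := fun l => by
    rw [hb]
    simp only
    rw [mul_pow, Real.sq_sqrt (twc_sq_nonneg l)]
  have hoff : ∀ i, Summable fun l => ‖off (w i) l‖ ^ 2 := fun i =>
    (g1 (w i) (hw i)).2.2.2.2.1
  have hsa : Summable fun l => a l ^ 2 := by
    simp only [ha2]
    exact summable_sum fun i _ => hoff i
  have hsb : Summable fun l => b l ^ 2 := by
    simp only [hb2]
    exact hs2
  have hta : ∑' l, a l ^ 2 = flu w := by
    simp only [ha2]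
    unfold flu flS
    exact Summable.tsum_finsetSum fun i _ => hoff i
  have htb : ∑' l, b l ^ 2 = grS h := by
    simp only [hb2]
    rfl
  obtain ⟨hF, hFle⟩ := hTWA f a b hf ha0 hb0 hsa hsb
  rw [hta, htb] at hFle
  -- bound of `dot`
  have hconv : ∀ k : Z2, Summable fun l => a l * b (k - l) := by
    intro k
    have h1 : Summable fun l => b (k - l) ^ 2 := by
      have := (Equiv.subLeft k).summable_iff.mpr hsb
      exact this
    exact (twc_cs a (fun l => b (k - l)) ha0 (fun l => hb0 _) hsa h1).1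
  have hm0 : ∀ k : Z2, ‖trm w h k 0‖ ≤ √(mu w) * b k := by
    intro k
    have := twc_trm w h k 0
    rw [sub_zero] at this
    exact this
  have hdot : ∀ k : Z2, ‖dot w h k‖ ≤ √(mu w) * b k + ∑' l, a l * b (k - l) := by
    intro k
    have h1 : HasSum (fun l : Z2 => (if l = 0 then √(mu w) * b k else 0) + a l * b (k - l))
        (√(mu w) * b k + ∑' l, a l * b (k - l)) :=
      (hasSum_ite_eq 0 _).add (hconv k).hasSum
    refine tsum_of_norm_bounded h1 fun l => ?_
    by_cases hl : l = 0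
    · subst hl
      rw [if_pos rfl]
      have h2 := hm0 k
      have h3 : 0 ≤ a 0 * b (k - 0) := mul_nonneg (ha0 _) (hb0 _)
      linarith
    · rw [if_neg hl, zero_add]
      have h2 := twc_trm w h k l
      have h3 : a l = √(∑ i, ‖w i l‖ ^ 2) := by
        rw [ha]
        simp only [off, if_neg hl]
      rw [h3]
      exact h2
  -- the first series
  have hcs := twc_cs (fun k => √(‖off f k‖ ^ 2 / sq k)) b (fun k => Real.sqrt_nonneg _) hb0
    (by
      have : (fun k : Z2 => √(‖off f k‖ ^ 2 / sq k) ^ 2) = fun k => ‖off f k‖ ^ 2 / sq k := by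
        ext k
        exact Real.sq_sqrt (div_nonneg (sq_nonneg _) (twc_sq_nonneg k))
      rw [this]
      exact fs4) hsb
  have hp2 : ∑' k : Z2, √(‖off f k‖ ^ 2 / sq k) ^ 2 = hmS f := by
    unfold hmS
    refine tsum_congr fun k => ?_
    exact Real.sq_sqrt (div_nonneg (sq_nonneg _) (twc_sq_nonneg k))
  rw [hp2, htb] at hcs
  obtain ⟨hcs1, hcs2⟩ := hcs
  -- pointwise
  have hFk : ∀ k : Z2, ∑' l, ‖off f k‖ / sq k * (a l * b (k - l)) =
      ‖off f k‖ / sq k * ∑' l, a l * b (k - l) := fun k => tsum_mul_left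
  have hpt : ∀ k : Z2, ‖((starRingEnd ℂ) (off f k) * dot w h k).re / sq k‖ ≤
      √(mu w) * (√(‖off f k‖ ^ 2 / sq k) * b k) +
        ∑' l, ‖off f k‖ / sq k * (a l * b (k - l)) := by
    intro k
    rw [hFk]
    by_cases hk : k = 0
    · subst hk
      have : off f 0 = 0 := by simp [off]
      rw [this]
      simp
    · have h1 := twc_sq_one hk
      have h0 : 0 < sq k := by linarith
      rw [Real.norm_eq_abs, abs_div, abs_of_pos h0]
      have h2 : |((starRingEnd ℂ) (off f k) * dot w h k).re| ≤ ‖off f k‖ * ‖dot w h k‖ := by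
        refine (Complex.abs_re_le_norm _).trans ?_
        rw [norm_mul, RCLike.norm_conj]
      have h3 : |((starRingEnd ℂ) (off f k) * dot w h k).re| / sq k ≤
          ‖off f k‖ / sq k * (√(mu w) * b k + ∑' l, a l * b (k - l)) := by
        calc |((starRingEnd ℂ) (off f k) * dot w h k).re| / sq k
            ≤ ‖off f k‖ * ‖dot w h k‖ / sq k := by
              exact div_le_div_of_nonneg_right h2 h0.le
          _ = ‖off f k‖ / sq k * ‖dot w h k‖ := by ring
          _ ≤ _ := mul_le_mul_of_nonneg_left (hdot k) (div_nonneg (norm_nonneg _) h0.le)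
      refine h3.trans ?_
      rw [mul_add]
      have h4 : ‖off f k‖ / sq k ≤ √(‖off f k‖ ^ 2 / sq k) := by
        apply Real.le_sqrt_of_sq_le
        rw [div_pow]
        apply div_le_div_of_nonneg_left (sq_nonneg _) h0
        nlinarith
      have h5 : ‖off f k‖ / sq k * (√(mu w) * b k) ≤
          √(mu w) * (√(‖off f k‖ ^ 2 / sq k) * b k) := by
        have h6 : 0 ≤ √(mu w) * b k := mul_nonneg (Real.sqrt_nonneg _) (hb0 k)
        calc ‖off f k‖ / sq k * (√(mu w) * b k)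
            ≤ √(‖off f k‖ ^ 2 / sq k) * (√(mu w) * b k) := mul_le_mul_of_nonneg_right h4 h6
          _ = _ := by ring
      linarith
  have hG := (hcs1.mul_left (√(mu w))).hasSum.add hF.prod.hasSum
  have hfin := tsum_of_norm_bounded hG hpt
  rw [Real.norm_eq_abs] at hfin
  refine hfin.trans ?_
  rw [tsum_mul_left]
  have h7 : ∑' k : Z2, ∑' l : Z2, ‖off f k‖ / sq k * (a l * b (k - l)) =
      ∑' x : Z2 × Z2, ‖off f x.1‖ / sq x.1 * (a x.2 * b (x.1 - x.2)) := by
    rw [hF.tsum_prod]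
  have h8 : √(mu w) * ∑' k, √(‖off f k‖ ^ 2 / sq k) * b k ≤
      √(mu w) * (√(grS h) * √(hmS f)) := by
    apply mul_le_mul_of_nonneg_left _ (Real.sqrt_nonneg _)
    rw [mul_comm (√(grS h))]
    exact hcs2
  have h9 : ∑' k : Z2, ∑' l : Z2, ‖off f k‖ / sq k * (a l * b (k - l)) ≤
      2 * √cW * √(flS f) * (√(flu w) * √(grS h)) := by
    rw [h7]
    exact hFle
  have h10 : (∑' k : Z2, ∑' l : Z2, ‖off f (k, l).1‖ / sq (k, l).1 *
      (a (k, l).2 * b ((k, l).1 - (k, l).2))) ≤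
      2 * √cW * √(flS f) * (√(flu w) * √(grS h)) := h9
  linarith

end HB
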