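import Pool.Agent.H61.HB.Stmts

/-!
Project HB (MP_91403e_an), row HSB: the `H^s` bound from a bound for `∫ dsq`.
-/

set_option autoImplicit false

namespace HB

open MeasureTheory Set

theorem hsb_adv (s C : ℝ) (hbil : ∀ (u : V) (f : Z2 → ℂ), Mem s u → MemS s f →
    (∀ k, Summable fun l => ‖trm u f k l‖) ∧ MemS (s - 2) (dot u f) ∧
    nqS (s - 2) (dot u f) ≤ C * (nsq s u * nqS 2 f + nsq 2 u * nqS s f)) (a : V) (ha : Mem s a) :
    nsq (s - 2) (adv a a) ≤ 2 * C * (nsq 2 a * nsq s a) := by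
  have h0 := (hbil a (a 0) ha (ha 0)).2.2
  have h1 := (hbil a (a 1) ha (ha 1)).2.2
  have e1 : nsq (s - 2) (adv a a) = nqS (s - 2) (dot a (a 0)) + nqS (s - 2) (dot a (a 1)) := by
    unfold nsq adv
    rw [Fin.sum_univ_two]
  have e2 : nsq 2 a = nqS 2 (a 0) + nqS 2 (a 1) := by
    unfold nsq
    rw [Fin.sum_univ_two]
  have e3 : nsq s a = nqS s (a 0) + nqS s (a 1) := by
    unfold nsq
    rw [Fin.sum_univ_two]
  rw [e1]
  calc nqS (s - 2) (dot a (a 0)) + nqS (s - 2) (dot a (a 1))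
      ≤ C * (nsq s a * nqS 2 (a 0) + nsq 2 a * nqS s (a 0)) +
        C * (nsq s a * nqS 2 (a 1) + nsq 2 a * nqS s (a 1)) := add_le_add h0 h1
    _ = C * (nsq s a * (nqS 2 (a 0) + nqS 2 (a 1)) + nsq 2 a * (nqS s (a 0) + nqS s (a 1))) := by
        ring
    _ = 2 * C * (nsq 2 a * nsq s a) := by rw [← e2, ← e3]; ring

theorem hsb_dsq_nonneg (u : V) : 0 ≤ dsq u := by
  unfold dsq dsS
  refine Finset.sum_nonneg fun j _ => tsum_nonneg fun k => ?_
  positivity

theorem hsb_mean (s X : ℝ) (u : V) (hu : Mem s u) (h0 : ∀ (f : Z2 → ℂ), 0 ≤ nqS s f)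
    (hX : nsq s u ≤ X) (j : Fin 2) : ‖u j 0‖ ^ 2 ≤ X := by
  have h1 : ‖u j 0‖ ^ 2 ≤ nqS s (u j) := by
    have h2 := (hu j).le_tsum (0 : Z2) (fun k _ => by
      have : 0 ≤ 1 + sq k := by unfold sq; positivity
      positivity)
    have h3 : (1 + sq (0 : Z2)) ^ s * ‖u j 0‖ ^ 2 = ‖u j 0‖ ^ 2 := by
      simp [sq]
    rw [h3] at h2
    exact h2
  have h4 : nqS s (u j) ≤ nsq s u := by
    unfold nsq
    exact Finset.single_le_sum (f := fun j => nqS s (u j)) (fun i _ => h0 (u i))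
      (Finset.mem_univ j)
  linarith

theorem hsb_thm (hMLD : MLDStmt) (hDUB : DUBStmt) (hBIL : BILStmt) (hGRW : GRWStmt)
    (hDIV : DIVStmt) (hMEA : MEAStmt) (hMMB : MMBStmt) (hCON : CONStmt) (hADC : ADCStmt)
    (hSGC : SGCStmt) : HSBStmt := by
  intro ν s T M X hν hs hT hM hX
  obtain ⟨C, hC, hbil⟩ := hBIL s hs
  obtain ⟨mS0, mSm, mSs, mV0, mVm, mVs⟩ := hMMB
  obtain ⟨-, -, dv3⟩ := hDIV
  have hK0 : 0 ≤ 4 * C * (T + 2 / ν) := by positivity
  refine ⟨2 * X * Real.exp (4 * C * (T + 2 / ν) * ((4 * X + 16 * M ^ 2) * T + 4 * M)),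
    by positivity, ?_⟩
  intro T' hT' u hu hX0 hM0
  have hT'0 := hT'.1
  obtain ⟨hcts, hmild⟩ := (hMLD ν s T' u hν hs hT'0).mp hu
  have hcs := (hCON s T' u hcts).2
  have hcts2 : Cts 2 T' u := by
    refine ⟨fun t ht j => (mSm 2 s _ hs (hcts.1 t ht j)).1, ?_⟩
    intro t ht
    refine squeeze_zero' ?_ ?_ (hcts.2 t ht)
    · exact Filter.Eventually.of_forall (fun r => mV0 2 _)
    · filter_upwards [self_mem_nhdsWithin] with r hr
      exact (mVm 2 s _ hs ((mVs s _ _ (hcts.1 r hr) (hcts.1 t ht)).1)).2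
  have hc2 := (hCON 2 T' u hcts2).2
  have hG := hADC s T' u hs hcts
  have hcG := (hCON (s - 2) T' _ hG).2
  obtain ⟨hcd, hmean⟩ := hMEA ν s T' u hν hs hT'0 hu
  have hint : ∀ (f : ℝ → ℝ) (t : ℝ), ContinuousOn f (Icc 0 T') → t ∈ Icc 0 T' →
      IntervalIntegrable f volume 0 t := by
    intro f t hf ht
    apply ContinuousOn.intervalIntegrable
    rw [uIcc_of_le ht.1]
    exact hf.mono (Icc_subset_Icc le_rfl ht.2)
  have h00 : (0 : ℝ) ∈ Icc 0 T' := ⟨le_rfl, hT'0⟩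
  have hTT : T' ∈ Icc 0 T' := ⟨hT'0, le_rfl⟩
  -- the integral of `dsq` up to `t`
  have hdM : ∀ t ∈ Icc 0 T', ∫ r in (0 : ℝ)..t, dsq (u r) ≤ M := by
    intro t ht
    refine le_trans ?_ hM0
    have h1 : IntervalIntegrable (fun r => dsq (u r)) volume t T' := by
      apply ContinuousOn.intervalIntegrable
      rw [uIcc_of_le ht.2]
      exact hcd.mono (Icc_subset_Icc ht.1 le_rfl)
    rw [← intervalIntegral.integral_add_adjacent_intervals (hint _ t hcd ht) h1]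
    have h2 : 0 ≤ ∫ r in t..T', dsq (u r) :=
      intervalIntegral.integral_nonneg ht.2 (fun r _ => hsb_dsq_nonneg _)
    linarith
  -- the integral inequality
  have hineq : ∀ t ∈ Icc 0 T', nsq s (u t) ≤ 2 * X +
      ∫ r in (0 : ℝ)..t, (4 * C * (T + 2 / ν) * nsq 2 (u r)) * nsq s (u r) := by
    intro t ht
    have h1 : nsq s (u t) ≤ 2 * nsq s (sgr ν t (u 0)) +
        2 * nsq s (duh ν (fun r => adv (u r) (u r)) t) := by
      have hd := (hDUB ν s T' _ hν hT'0 hG t ht).1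
      have hsg := (hSGC ν s T' (u 0) hν hT'0 (hcts.1 0 h00)).1.1 t ht
      have := (mVs s _ _ hsg hd).2.2.1
      rw [hmild t ht]
      exact this
    have h2 : nsq s (sgr ν t (u 0)) ≤ X :=
      ((hSGC ν s T' (u 0) hν hT'0 (hcts.1 0 h00)).2 t ht.1).trans hX0
    have h3 := (hDUB ν s T' _ hν hT'0 hG t ht).2
    have h4 : ∫ r in (0 : ℝ)..t, nsq (s - 2) (adv (u r) (u r)) ≤
        ∫ r in (0 : ℝ)..t, 2 * C * (nsq 2 (u r) * nsq s (u r)) := by
      apply intervalIntegral.integral_mono_on ht.1 (hint _ t hcG ht)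
        (hint _ t (continuousOn_const.mul (hc2.mul hcs)) ht)
      intro r hr
      exact hsb_adv s C hbil (u r) (hcts.1 r ⟨hr.1, hr.2.trans ht.2⟩)
    have h5 : 0 ≤ ∫ r in (0 : ℝ)..t, 2 * C * (nsq 2 (u r) * nsq s (u r)) := by
      apply intervalIntegral.integral_nonneg ht.1
      intro r _
      have := mV0 2 (u r)
      have := mV0 s (u r)
      positivity
    have h6 : nsq s (duh ν (fun r => adv (u r) (u r)) t) ≤
        (T + 2 / ν) * ∫ r in (0 : ℝ)..t, 2 * C * (nsq 2 (u r) * nsq s (u r)) := by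
      refine h3.trans ?_
      have h7 : 0 ≤ T' + 2 / ν := by positivity
      have h8 : T' + 2 / ν ≤ T + 2 / ν := by linarith [hT'.2]
      calc (T' + 2 / ν) * ∫ r in (0 : ℝ)..t, nsq (s - 2) (adv (u r) (u r))
          ≤ (T' + 2 / ν) * ∫ r in (0 : ℝ)..t, 2 * C * (nsq 2 (u r) * nsq s (u r)) :=
            mul_le_mul_of_nonneg_left h4 h7
        _ ≤ _ := mul_le_mul_of_nonneg_right h8 h5
    have h9 : ∫ r in (0 : ℝ)..t, (4 * C * (T + 2 / ν) * nsq 2 (u r)) * nsq s (u r) =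
        2 * ((T + 2 / ν) * ∫ r in (0 : ℝ)..t, 2 * C * (nsq 2 (u r) * nsq s (u r))) := by
      rw [← intervalIntegral.integral_const_mul, ← intervalIntegral.integral_const_mul]
      congr 1
      ext r
      ring
    rw [h9]
    linarith
  have hg := hGRW T' (2 * X) (fun t => nsq s (u t))
    (fun t => 4 * C * (T + 2 / ν) * nsq 2 (u t)) hT'0 hcs (continuousOn_const.mul hc2)
    (fun t _ => mul_nonneg hK0 (mV0 2 _)) hineq T' hTT
  refine hg.trans ?_
  apply mul_le_mul_of_nonneg_left _ (by positivity)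
  apply Real.exp_le_exp.mpr
  rw [intervalIntegral.integral_const_mul]
  apply mul_le_mul_of_nonneg_left _ hK0
  -- the integral of `nsq 2`
  have hpt : ∀ r ∈ Icc 0 T', nsq 2 (u r) ≤ (4 * X + 16 * M ^ 2) + 4 * dsq (u r) := by
    intro r hr
    have hm := hcts2.1 r hr
    have hj : ∀ j : Fin 2, nqS 2 (u r j) ≤ (2 * X + 8 * M ^ 2) + 4 * dsS (u r j) := by
      intro j
      have h1 := (dv3 (u r j) (hm j)).2.2.2.2
      have h2 := hmean j r hr
      have h3 := hdM r hr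
      have h4 := hsb_mean s X (u 0) (hcts.1 0 h00) (mS0 s) hX0 j
      have h5 : ‖u r j 0‖ ≤ ‖u 0 j 0‖ + 2 * M := by
        have h6 : ‖u r j 0‖ ≤ ‖u r j 0 - u 0 j 0‖ + ‖u 0 j 0‖ := by
          have := norm_add_le (u r j 0 - u 0 j 0) (u 0 j 0)
          rwa [sub_add_cancel] at this
        linarith
      have h7 : ‖u r j 0‖ ^ 2 ≤ 2 * X + 8 * M ^ 2 := by
        have h8 : ‖u r j 0‖ ^ 2 ≤ (‖u 0 j 0‖ + 2 * M) ^ 2 :=
          pow_le_pow_left₀ (norm_nonneg _) h5 2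
        nlinarith [sq_nonneg (‖u 0 j 0‖ - 2 * M)]
      linarith
    have h0 := hj 0
    have h1 := hj 1
    have e1 : nsq 2 (u r) = nqS 2 (u r 0) + nqS 2 (u r 1) := by
      unfold nsq
      rw [Fin.sum_univ_two]
    have e2 : dsq (u r) = dsS (u r 0) + dsS (u r 1) := by
      unfold dsq
      rw [Fin.sum_univ_two]
    rw [e1, e2]
    linarith
  calc ∫ r in (0 : ℝ)..T', nsq 2 (u r)
      ≤ ∫ r in (0 : ℝ)..T', ((4 * X + 16 * M ^ 2) + 4 * dsq (u r)) := by
        apply intervalIntegral.integral_mono_on hT'0 (hint _ T' hc2 hTT)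
          (hint _ T' (continuousOn_const.add (continuousOn_const.mul hcd)) hTT)
        intro r hr
        exact hpt r hr
    _ = (4 * X + 16 * M ^ 2) * T' + 4 * ∫ r in (0 : ℝ)..T', dsq (u r) := by
        rw [intervalIntegral.integral_add (by simp) ((hint _ T' hcd hTT).const_mul 4),
          intervalIntegral.integral_const_mul, intervalIntegral.integral_const]
        simp
        ring
    _ ≤ (4 * X + 16 * M ^ 2) * T + 4 * M := by
        have h1 : (4 * X + 16 * M ^ 2) * T' ≤ (4 * X + 16 * M ^ 2) * T :=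
          mul_le_mul_of_nonneg_left hT'.2 (by positivity)
        linarith

end HB
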