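import Pool.Agent.H61.HB.Stmts4

set_option autoImplicit false

namespace HB

private lemma crd_sq (k : Z2) : 0 ≤ sq k := by
  unfold sq
  positivity

private lemma crd_nn (w : V) : 0 ≤ hm w + mu w ∧ 0 ≤ grd w := by
  constructor
  · unfold hm mu hmS
    refine add_nonneg (Finset.sum_nonneg fun j _ => tsum_nonneg fun k => ?_)
      (Finset.sum_nonneg fun j _ => by positivity)
    exact div_nonneg (by positivity) (crd_sq k)
  · unfold grd grS
    exact Finset.sum_nonneg fun j _ => tsum_nonneg fun k => mul_nonneg (crd_sq k) (by positivity)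

private lemma crd_zero : hm (0 : V) + mu (0 : V) = 0 := by
  have h1 : ∀ k : Z2, off (0 : Z2 → ℂ) k = 0 := by
    intro k
    unfold off
    split_ifs <;> rfl
  have h2 : hm (0 : V) = 0 := by
    unfold hm hmS
    refine Finset.sum_eq_zero fun j _ => ?_
    have h3 : ∀ k : Z2, ‖off ((0 : V) j) k‖ ^ 2 / sq k = 0 := by
      intro k
      rw [show (0 : V) j = (0 : Z2 → ℂ) from rfl, h1 k]
      simp
    simp_rw [h3]
    exact tsum_zero
  have h4 : mu (0 : V) = 0 := by
    unfold mu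
    refine Finset.sum_eq_zero fun j _ => ?_
    simp
  rw [h2, h4, add_zero]

theorem crd_thm (hNED : NEDStmt) (hBTS : BTSStmt) (hITH : ITHStmt) (hCTA : CTAStmt)
    (_hGRF : GRFStmt) : CRDStmt := by
  intro ν M p hν hM hp hr
  obtain ⟨K, c, n₁, hK, hc, hN⟩ := hNED ν M p hν hM hp hr
  obtain ⟨n₂, hn₂⟩ := exists_nat_gt (K / ν + 2 * K / (ν * c ^ 2))
  refine ⟨2 * K / ν + 2 * K / ν ^ 2, max n₁ n₂, by positivity, ?_⟩
  intro n hn hn1 s T v hs hT hv hvr hv0
  have hnn1 : n₁ ≤ n := (le_max_left _ _).trans hn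
  have hnn2 : (n₂ : ℝ) ≤ n := by exact_mod_cast (le_max_right _ _).trans hn
  have hn0 : (0 : ℝ) < n := by exact_mod_cast hn1
  have h1 : K / ν + 2 * K / (ν * c ^ 2) < n := hn₂.trans_le hnn2
  have h2 : K ≤ ν * n := by
    have h3 : 0 ≤ 2 * K / (ν * c ^ 2) := by positivity
    have h4 : K / ν < n := by linarith
    rw [div_lt_iff₀ hν] at h4
    linarith
  have h5 : 2 * K / (ν * n) < c ^ 2 := by
    have h3 : 0 ≤ K / ν := by positivity
    have h4 : 2 * K / (ν * c ^ 2) < n := by linarith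
    rw [div_lt_iff₀ (by positivity)] at h4 ⊢
    linarith
  obtain ⟨i1, i2, i3⟩ := hITH ν K n hν hK.le hn1 T hT
  have i4 := i3 h2
  obtain ⟨c1, -, -, -⟩ := hCTA.2 ν s T M p n v hs hM hp hv
  obtain ⟨c2, c3, c4⟩ := hCTA.1 T _ c1
  have hX := fun t ht => hN n hnn1 hn1 s T v hs hT hv hvr t ht
  choose! X' hX' using hX
  have hth : Continuous (fun t : ℝ => tht ν n t) := by
    unfold tht
    fun_prop
  have hg : ContinuousOn (fun r : ℝ => K * (n : ℝ) ^ 7 * tht ν n r) (Set.Icc 0 T) :=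
    (continuous_const.mul hth).continuousOn
  have hzero : hm (v 0 - apx ν p n (tht ν n 0)) + mu (v 0 - apx ν p n (tht ν n 0)) = 0 := by
    have e1 : tht ν n 0 = 1 := by
      unfold tht
      simp
    rw [e1, hv0, sub_self]
    exact crd_zero
  have hmain := hBTS T ν c (fun r => hm (v r - apx ν p n (tht ν n r)) +
      mu (v r - apx ν p n (tht ν n r))) (fun r => grd (v r - apx ν p n (tht ν n r)))
    (fun r => K * (n : ℝ) ^ 7 * tht ν n r) X' hT hν hc c4 hg
    (fun t _ => ⟨(crd_nn _).1, (crd_nn _).2, by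
      have : 0 < tht ν n t := Real.exp_pos _
      positivity⟩) hzero (fun t ht => hX' t ht) (i4.trans_lt h5)
  obtain ⟨m1, m2⟩ := hmain
  have e2 : 2 * K / (ν * n) = 2 * K / ν / n := by
    field_simp
  have e3 : 2 * K / ν / n ≤ (2 * K / ν + 2 * K / ν ^ 2) / n := by
    apply div_le_div_of_nonneg_right _ hn0.le
    have : 0 ≤ 2 * K / ν ^ 2 := by positivity
    linarith
  constructor
  · intro t ht
    have m3 := m1 t ht
    calc hm (v t - apx ν p n (tht ν n t)) + mu (v t - apx ν p n (tht ν n t))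
        ≤ Real.exp (∫ r in (0 : ℝ)..T, K * (n : ℝ) ^ 7 * tht ν n r) - 1 := m3
      _ ≤ 2 * K / (ν * n) := i4
      _ = 2 * K / ν / n := e2
      _ ≤ _ := e3
  · have m3 : ν * ∫ r in (0 : ℝ)..T, grd (v r - apx ν p n (tht ν n r)) ≤ 2 * K / (ν * n) :=
      m2.trans i4
    have m4 : ∫ r in (0 : ℝ)..T, grd (v r - apx ν p n (tht ν n r)) ≤ 2 * K / ν ^ 2 / n := by
      have e4 : ν * (2 * K / ν ^ 2 / n) = 2 * K / (ν * n) := by
        field_simp
      rw [← e4] at m3
      exact le_of_mul_le_mul_left m3 hν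
    refine m4.trans ?_
    apply div_le_div_of_nonneg_right _ hn0.le
    have : 0 ≤ 2 * K / ν := by positivity
    linarith

end HB
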